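import Mathlib
import Pool.Agent.Mg.F40fdec.G80237a

namespace Pool.Agent.MP_ac9d16_lc.Old.DncOrBeyond

open Pool.Agent.MP_ac9d16_lc

/-- There is a set `A` computable from the halting set such that for every infinite subset `H` of
`A` or of its complement, the jump of `H` computes a function that is DNC relative to the halting
set, unless the index set of the c.e. sets that meet `H` in an infinite set is not co-c.e. in `∅''`
and the double jump of `H` computes a function that is DNC relative to `∅''`. -/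
theorem result : ∃ A : Set ℕ, Computes (jump ∅) (chi A) ∧
    ∀ H : Set ℕ, H.Infinite → (H ⊆ A ∨ H ⊆ Aᶜ) →
      (∃ f : ℕ → ℕ, Computes (jump H) f ∧ ∀ e, f e ∉ Phi (chi (jump ∅)) e e) ∨
      ((¬ ∃ c, ∀ e, (H ∩ {x | (Phi (chi ∅) e x).Dom}).Infinite ↔
          ¬ (Phi (chi (jump (jump ∅))) c e).Dom) ∧
        ∃ f : ℕ → ℕ, Computes (jump (jump H)) f ∧ ∀ e, f e ∉ Phi (chi (jump (jump ∅))) e e) :=
  ⟨T.AA, computes_iff.2 T.computes_AA, fun _ hH h => by
    simp only [computes_iff]
    exact or_iff_not_imp_left.2 fun hno =>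
      ⟨fun ⟨_, hc⟩ => hno (T.dnc_of_index hH h hc), T.dnc_or_dnc hH h hno⟩⟩

end Pool.Agent.MP_ac9d16_lc.Old.DncOrBeyond
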