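import Mathlib
import Pool.Agent.Mg.F40fdec.G5d153e

namespace Pool.Agent.MP_ac9d16_lc.Old.DncOrEscape

open Pool.Agent.MP_ac9d16_lc

/-- There is a set `A` computable from the halting set such that for every infinite subset `H` of
`A` or of its complement, the jump of `H` computes a function that is DNC relative to the halting
set, or no function computable from the halting set dominates all functions computable from `H`. -/
theorem result : ∃ A : Set ℕ, Computes (jump ∅) (chi A) ∧
    ∀ H : Set ℕ, H.Infinite → (H ⊆ A ∨ H ⊆ Aᶜ) →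
      (∃ f : ℕ → ℕ, Computes (jump H) f ∧ ∀ e, f e ∉ Phi (chi (jump ∅)) e e) ∨
      (∀ g : ℕ → ℕ, Computes (jump ∅) g →
        ∃ f : ℕ → ℕ, Computes H f ∧ ∃ᶠ n in Filter.atTop, g n < f n) :=
  ⟨D.AA, computes_iff.2 D.computes_AA, fun _ hH h => by
    simpa only [computes_iff] using D.dnc_or_escape hH h⟩

end Pool.Agent.MP_ac9d16_lc.Old.DncOrEscape
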