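import Mathlib
import Pool.Agent.Mg.F40fdec.G0b7897

namespace Pool.Agent.MP_ac9d16_lc.Old.NullOracles

open Pool.Agent.MP_ac9d16_lc

/-- There is a set `A` computable from the halting set such that, for the fair coin measure,
almost no oracle computes, together with the halting set, the jump of an infinite subset of `A`
or of its complement. -/
theorem result : ∃ A : Set ℕ, Computes (jump ∅) (chi A) ∧
    MeasureTheory.Measure.infinitePi (fun _ : ℕ => (PMF.uniformOfFintype Bool).toMeasure)
      {G : ℕ → Bool | ∃ H : Set ℕ, H.Infinite ∧ (H ⊆ A ∨ H ⊆ Aᶜ) ∧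
        RecursiveIn
          {fun n => Part.some (chi {m | G m = true} n), fun n => Part.some (chi (jump ∅) n)}
          fun n => Part.some (chi (jump H) n)} = 0 :=
  ⟨N.AA, computes_iff.2 N.computes_AA, N.null⟩

end Pool.Agent.MP_ac9d16_lc.Old.NullOracles
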